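import Mathlib

/-!
# The weak Serre conjecture for totally real fields: everywhere unramified representations

Let `p ≥ 7` be a prime, `k` an algebraic closure of the field with `p` elements, and `W` the absolute Galois
group of `ℚ`. Totally real fields `F` are given by their absolute Galois groups `H ≤ W` (`TR H`); `Cc` is the
set of complex conjugations, `I` the set of all inertia groups at finite primes and `Dp` the set of all
decomposition groups at primes above `p` in `W`; `cont` and `mod` say that a representation of `H` is
continuous, respectively modular.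

**Theorem.** Let `H₀` be the absolute Galois group of a totally real Galois extension `F₀` of `ℚ` with solvable
Galois group, and let `m ≥ 1`. The following are equivalent.

1. Q1 for `p`: for every totally real field `F` every continuous, irreducible, totally odd representation
  of its Galois group over `k` is modular.
2. The same for the totally real fields `F` which contain `F₀` and whose degree is divisible by `m`, and for the
  representations with nonsolvable image which are unramified at all finite primes and trivial on the
  decomposition groups at the primes above `p`.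

The facts which are used (`Known`): `solvable`: representations with solvable image are modular
(automorphic induction in the dihedral case; Langlands and Tunnell; congruences to weight at least two);
`shrink`: for a representation `ρ` of the Galois group of `F` with nonsolvable image there is a totally real
Galois extension `F'` of `F` with solvable Galois group, containing `F₀` and of degree divisible by `m`,
which is linearly disjoint from the field cut out by `ρ` (so that the image does not change) and such that
`ρ` becomes unramified at all finite primes and trivial at the primes above `p` (approximation of local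
extensions with solvable groups by global ones); `descent`: if the restriction of `ρ` to `F'` is modular then
so is `ρ`: the image being nonsolvable and `p ≥ 7`, `ρ` is irreducible over the field of `p`-th roots of
unity, it has a potentially Barsotti-Tate lift to characteristic zero (Khare and Wintenberger, Snowden,
Barnet-Lamb, Gee and Geraghty), the restriction to `F'` of the lift is modular by modularity lifting
(Kisin, Gee, Barnet-Lamb, Gee and Geraghty), and one applies solvable descent (Langlands).
-/

set_option autoImplicit false

namespace Pool.Agent.Results.MP_cab3fc_nt.EverywhereUnramified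

open Matrix

variable {W : Type} [Group W] {k : Type} [Field k]

/-- a homomorphism to `GL₂(k)` without stable line -/
def Irr {H : Subgroup W} (ρ : H →* GL (Fin 2) k) : Prop :=
  ∀ v : Fin 2 → k, v ≠ 0 → ∃ h : H, ∀ c : k, (ρ h : Matrix (Fin 2) (Fin 2) k).mulVec v ≠ c • v

/-- totally odd -/
def Odd (Cc : Set W) {H : Subgroup W} (ρ : H →* GL (Fin 2) k) : Prop :=
  ∀ c : H, (c : W) ∈ Cc → (ρ c : Matrix (Fin 2) (Fin 2) k).det = -1

/-- unramified at all finite primes and trivial on the decomposition groups above `p` -/
def Unr (I Dp : Set (Subgroup W)) {H : Subgroup W} (ρ : H →* GL (Fin 2) k) : Prop :=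
  (∀ J ∈ I, ∀ x : H, (x : W) ∈ J → ρ x = 1) ∧ ∀ J ∈ Dp, ∀ x : H, (x : W) ∈ J → ρ x = 1

/-- the restriction to a subgroup -/
def res {H H' : Subgroup W} (h : H' ≤ H) (ρ : H →* GL (Fin 2) k) : H' →* GL (Fin 2) k :=
  ρ.comp (Subgroup.inclusion h)

/-- The known theorems, see above. -/
structure Known (Cc : Set W) (I Dp : Set (Subgroup W)) (TR : Subgroup W → Prop)
    (cont mod : (H : Subgroup W) → (H →* GL (Fin 2) k) → Prop) (H₀ : Subgroup W) (m : ℕ) :
    Prop where
  solvable : ∀ (H : Subgroup W) (ρ : H →* GL (Fin 2) k), TR H → cont H ρ → Irr ρ → Odd Cc ρ →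
    IsSolvable ρ.range → mod H ρ
  shrink : ∀ (H : Subgroup W) (ρ : H →* GL (Fin 2) k), TR H → cont H ρ → Irr ρ → Odd Cc ρ →
    ¬ IsSolvable ρ.range → ∃ (H' : Subgroup W) (h : H' ≤ H), TR H' ∧ H' ≤ H₀ ∧ m ∣ H'.index ∧
      Unr I Dp (res h ρ) ∧ cont H' (res h ρ) ∧ (res h ρ).range = ρ.range ∧
      (mod H' (res h ρ) → mod H ρ)

/-- A representation whose restriction has the same image stays irreducible. -/
lemma irr_res {H H' : Subgroup W} (h : H' ≤ H) (ρ : H →* GL (Fin 2) k)
    (hr : (res h ρ).range = ρ.range) (hρ : Irr ρ) : Irr (res h ρ) := by
  intro v hv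
  obtain ⟨x, hx⟩ := hρ v hv
  obtain ⟨y, hy⟩ : ρ x ∈ (res h ρ).range := hr ▸ ⟨x, rfl⟩
  exact ⟨y, fun c => by rw [hy]; exact hx c⟩

/-- **The weak Serre conjecture for totally real fields: everywhere unramified representations.** See the
explanations above. -/
theorem result (Cc : Set W) (I Dp : Set (Subgroup W)) (TR : Subgroup W → Prop)
    (cont mod : (H : Subgroup W) → (H →* GL (Fin 2) k) → Prop) (H₀ : Subgroup W) (m : ℕ)
    (known : Known Cc I Dp TR cont mod H₀ m) :
    (∀ (H : Subgroup W) (ρ : H →* GL (Fin 2) k), TR H → cont H ρ → Irr ρ → Odd Cc ρ → mod H ρ) ↔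
      ∀ (H : Subgroup W) (ρ : H →* GL (Fin 2) k), TR H → H ≤ H₀ → m ∣ H.index → cont H ρ → Irr ρ →
        Odd Cc ρ → ¬ IsSolvable ρ.range → Unr I Dp ρ → mod H ρ := by
  constructor
  · intro h H ρ h1 _ _ h2 h3 h4 _ _
    exact h H ρ h1 h2 h3 h4
  · intro h H ρ h1 h2 h3 h4
    by_cases hs : IsSolvable ρ.range
    · exact known.solvable H ρ h1 h2 h3 h4 hs
    · obtain ⟨H', hle, a1, a2, a3, a4, a5, a6, a7⟩ := known.shrink H ρ h1 h2 h3 h4 hs
      refine a7 (h H' (res hle ρ) a1 a2 a3 a5 (irr_res hle ρ a6 h3) ?_ (a6 ▸ hs) a4)
      intro c hc
      exact h4 (Subgroup.inclusion hle c) hc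

end Pool.Agent.Results.MP_cab3fc_nt.EverywhereUnramified
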