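import Mathlib
import Pool.Agent.Q112.PI.Ext

/-!
# Modularity of the mod p representations which are potentially invariant up to twist

`F` is a totally real field whose Galois closure over `ℚ` is solvable, `W` and `H` are the absolute
Galois groups of `ℚ` and `F`, `C` is the set of complex conjugations in `W` and `k` an algebraic
closure of the field with `p` elements. Let `ρ : H → GL₂(k)` be continuous and totally odd, `L` a
finite Galois extension of `ℚ` containing `F` with absolute Galois group `A`. If over `L` the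
representation `ρ` is irreducible, without nontrivial selftwist, and isomorphic to a twist of each
of its conjugates under `W`, then `ρ` is a twist of the restriction to `H` of a modular
representation of `W`, and `ρ` is modular.
-/

set_option autoImplicit false

namespace Pool.Agent.Results.MP_cab3fc_nt.ProjectivelyInvariant

open Matrix Q112PI

variable {W : Type} [Group W] {k : Type} [Field k]

/-- The published theorems. `contQ`, `cont`: continuous representations of `W` and of `H`; `modQ`,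
`mod`: modular representations of `W` (attached to a classical cuspidal eigenform of weight at least
two) and of `H` (attached to a cuspidal Hilbert modular eigenform over `F`). -/
structure KnownTheorems (H : Subgroup W) (C : Set W)
    (contQ modQ : (W →* GL (Fin 2) k) → Prop) (cont mod : (H →* GL (Fin 2) k) → Prop) : Prop where
  /-- Tate: a continuous projective representation of `W` lifts to a continuous representation
  (`H` is open in `W`, so a projective representation is continuous if it is so on `H`) -/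
  tate : ∀ (P : W → GL (Fin 2) k) (ρ : H →* GL (Fin 2) k), IsProj P → cont ρ →
    (∀ h : H, P h = ρ h) → ∃ ρ₀ : W →* GL (Fin 2) k, contQ ρ₀ ∧
      ∀ g : W, ∃ c : kˣ, (ρ₀ g : Matrix (Fin 2) (Fin 2) k) = (c : k) • (P g : Matrix _ _ k)
  /-- Khare, Wintenberger, Kisin: Serre's modularity conjecture over `ℚ` -/
  serre : ∀ ρ₀ : W →* GL (Fin 2) k, contQ ρ₀ → Irr ρ₀ →
    (∀ c ∈ C, (ρ₀ c : Matrix (Fin 2) (Fin 2) k).det = -1) → modQ ρ₀
  /-- Langlands: base change to a totally real field with solvable Galois closure -/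
  base_change : ∀ ρ₀ : W →* GL (Fin 2) k, modQ ρ₀ → Irr (ρ₀.comp H.subtype) →
    mod (ρ₀.comp H.subtype)
  /-- twist of a cuspidal eigenform by a Hecke character of finite order -/
  twist : ∀ ρ ρ' : H →* GL (Fin 2) k, mod ρ → cont ρ' → IsTwist ρ ρ' → mod ρ'

theorem result [IsAlgClosed k] {H A : Subgroup W} [A.Normal] (hAH : A ≤ H) {C : Set W}
    (hC : ∀ c ∈ C, c * c = 1) (hCH : ∀ c ∈ C, c ∈ H)
    {contQ modQ : (W →* GL (Fin 2) k) → Prop} {cont mod : (H →* GL (Fin 2) k) → Prop}
    (known : KnownTheorems H C contQ modQ cont mod) (ρ : H →* GL (Fin 2) k) (hcont : cont ρ)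
    (hodd : ∀ c : H, (c : W) ∈ C → (ρ c : Matrix (Fin 2) (Fin 2) k).det = -1)
    (hirr : Irr (ρ.comp (Subgroup.inclusion hAH)))
    (hns : NoSelfTwist (ρ.comp (Subgroup.inclusion hAH)))
    (hinv : InvUpToTwist (ρ.comp (Subgroup.inclusion hAH))) :
    (∃ ρ₀ : W →* GL (Fin 2) k, modQ ρ₀ ∧ IsTwist (ρ₀.comp H.subtype) ρ) ∧ mod ρ := by
  obtain ⟨P, hP, hPρ⟩ := exists_proj hAH ρ hirr hns hinv
  obtain ⟨ρ₀, hρ₀, hlift⟩ := known.tate P ρ hP hcont hPρ
  have htw : IsTwist (ρ₀.comp H.subtype) ρ := by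
    refine twist_of_lift ρ ρ₀ fun x => ?_
    obtain ⟨c, hc⟩ := hlift x
    exact ⟨c, by rw [hc, hPρ]⟩
  have hirrH : Irr (ρ₀.comp H.subtype) := by
    obtain ⟨χ, hχ⟩ := htw
    intro U hU
    apply hirr U
    intro a u hu
    have h1 := hχ (Subgroup.inclusion hAH a)
    show (ρ (Subgroup.inclusion hAH a) : Matrix (Fin 2) (Fin 2) k) *ᵥ u ∈ U
    rw [h1, Matrix.smul_mulVec]
    exact U.smul_mem _ (hU _ u hu)
  have hirr0 : Irr ρ₀ := fun U hU => hirrH U fun g u hu => hU g u hu
  have hodd0 : ∀ c ∈ C, (ρ₀ c : Matrix (Fin 2) (Fin 2) k).det = -1 := by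
    intro c hc
    obtain ⟨χ, hχ⟩ := htw
    have h1 := hχ ⟨c, hCH c hc⟩
    have h2 : (ρ₀.comp H.subtype) ⟨c, hCH c hc⟩ = ρ₀ c := rfl
    rw [h2] at h1
    set u : kˣ := χ ⟨c, hCH c hc⟩
    have h3 : ρ ⟨c, hCH c hc⟩ * ρ ⟨c, hCH c hc⟩ = 1 := by
      rw [← map_mul]
      have : (⟨c, hCH c hc⟩ : H) * ⟨c, hCH c hc⟩ = 1 := Subtype.ext (hC c hc)
      rw [this, map_one]
    have h4 : ρ₀ c * ρ₀ c = 1 := by
      rw [← map_mul, hC c hc, map_one]
    have h5 : (ρ ⟨c, hCH c hc⟩ : Matrix (Fin 2) (Fin 2) k)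
        * (ρ ⟨c, hCH c hc⟩ : Matrix (Fin 2) (Fin 2) k) = 1 := by
      rw [← Units.val_mul, h3, Units.val_one]
    have h6 : (ρ₀ c : Matrix (Fin 2) (Fin 2) k) * (ρ₀ c : Matrix (Fin 2) (Fin 2) k) = 1 := by
      rw [← Units.val_mul, h4, Units.val_one]
    have h7 : (u : k) * u = 1 := by
      rw [h1, Matrix.smul_mul, Matrix.mul_smul, smul_smul, h6] at h5
      have h8 := congrFun (congrFun h5 0) 0
      simpa using h8
    have h8 := hodd ⟨c, hCH c hc⟩ hc
    rw [h1, Matrix.det_smul, Fintype.card_fin, pow_two, h7, one_mul] at h8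
    exact h8
  have hmod0 : modQ ρ₀ := known.serre ρ₀ hρ₀ hirr0 hodd0
  exact ⟨⟨ρ₀, hmod0, htw⟩, known.twist _ _ (known.base_change ρ₀ hmod0 hirrH) hcont htw⟩

end Pool.Agent.Results.MP_cab3fc_nt.ProjectivelyInvariant
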